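import Pool.Agent.W996.EC.Cv

/-! EC project (helper996), part EC-VAL (helper803): a place where a monomial takes a given value. -/

set_option autoImplicit false

namespace Pool.Agent.W803.ECV

open Pool.Agent.W996.EC Filter Topology Polynomial

/-- regular units -/
def RU (T : Set (ℂ × ℂ)) (g : ℂ × ℂ → ℂ) : Prop :=
  ∃ A B : ℂ[X][X], ∀ p ∈ T, A.evalEval p.1 p.2 ≠ 0 ∧ B.evalEval p.1 p.2 ≠ 0 ∧
    g p = A.evalEval p.1 p.2 / B.evalEval p.1 p.2

theorem RU.one (T : Set (ℂ × ℂ)) : RU T (fun _ => 1) :=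
  ⟨1, 1, fun p _ => by simp⟩

theorem RU.mul {T : Set (ℂ × ℂ)} {g k : ℂ × ℂ → ℂ} (hg : RU T g) (hk : RU T k) :
    RU T (fun p => g p * k p) := by
  obtain ⟨A, B, h1⟩ := hg
  obtain ⟨A', B', h2⟩ := hk
  refine ⟨A * A', B * B', fun p hp => ?_⟩
  obtain ⟨a1, a2, a3⟩ := h1 p hp
  obtain ⟨b1, b2, b3⟩ := h2 p hp
  refine ⟨?_, ?_, ?_⟩
  · rw [evalEval_mul]; exact mul_ne_zero a1 b1
  · rw [evalEval_mul]; exact mul_ne_zero a2 b2
  · simp only []
    rw [evalEval_mul, evalEval_mul, a3, b3, div_mul_div_comm]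

theorem RU.prod {T : Set (ℂ × ℂ)} {ι : Type*} (s : Finset ι) (g : ι → ℂ × ℂ → ℂ)
    (hg : ∀ i, RU T (g i)) : RU T (fun p => ∏ i ∈ s, g i p) := by
  classical
  induction s using Finset.induction_on with
  | empty => simpa using RU.one T
  | insert i s hi ih =>
    have := (hg i).mul ih
    simpa [Finset.prod_insert hi] using this

theorem RU.zpow {T : Set (ℂ × ℂ)} {g : ℂ × ℂ → ℂ} (hg : RU T g) (m : ℤ) :
    RU T (fun p => g p ^ m) := by
  obtain ⟨A, B, h1⟩ := hg
  rcases Int.eq_nat_or_neg m with ⟨k, rfl | rfl⟩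
  · refine ⟨A ^ k, B ^ k, fun p hp => ?_⟩
    obtain ⟨a1, a2, a3⟩ := h1 p hp
    refine ⟨?_, ?_, ?_⟩
    · rw [evalEval_pow]; exact pow_ne_zero _ a1
    · rw [evalEval_pow]; exact pow_ne_zero _ a2
    · simp only [zpow_natCast]
      rw [evalEval_pow, evalEval_pow, a3, div_pow]
  · refine ⟨B ^ k, A ^ k, fun p hp => ?_⟩
    obtain ⟨a1, a2, a3⟩ := h1 p hp
    refine ⟨?_, ?_, ?_⟩
    · rw [evalEval_pow]; exact pow_ne_zero _ a2
    · rw [evalEval_pow]; exact pow_ne_zero _ a1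
    · simp only [zpow_neg, zpow_natCast]
      rw [evalEval_pow, evalEval_pow, a3, ← inv_pow, inv_div, div_pow]

/-- above each `z` with `h z ≠ 0` there is a point -/
theorem exists_pt {F : ℂ[X][X]} {h : ℂ[X]} (hc : Cov F h) (z : ℂ) (hz : h.eval z ≠ 0) :
    ∃ v, (z, v) ∈ TT F h := by
  have h1 := (hc.good z hz).1
  have h2 : 0 < (F.map (evalRingHom z)).degree := by
    rw [← Polynomial.natDegree_pos_iff_degree_pos, h1]
    exact hc.deg
  obtain ⟨v, hv⟩ := Complex.exists_root h2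
  refine ⟨v, ?_, hz⟩
  rw [← map_evalRingHom_eval]
  exact hv

/-- a polynomial vanishing on the curve is divisible by `F` -/
theorem dvd_of_vanish (h3 : S_res) {F : ℂ[X][X]} {h : ℂ[X]} (hc : Cov F h) (G : ℂ[X][X])
    (hG : ∀ p ∈ TT F h, G.evalEval p.1 p.2 = 0) : F ∣ G := by
  by_contra hn
  obtain ⟨a, b, ρ, hρ, hab⟩ := h3 F G hc.irr hc.deg hn
  have h4 : h * ρ = 0 := by
    apply Polynomial.funext
    intro z
    rw [eval_mul, eval_zero]
    by_cases hz : h.eval z = 0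
    · rw [hz, zero_mul]
    · obtain ⟨v, hv⟩ := exists_pt hc z hz
      have h5 := hG _ hv
      have h6 := hv.1
      have h7 := congrArg (evalEval z v) hab
      rw [evalEval_add, evalEval_mul, evalEval_mul, evalEval_C] at h7
      simp only at h5 h6
      rw [h5, h6, mul_zero, mul_zero, add_zero] at h7
      rw [← h7, mul_zero]
  exact (mul_ne_zero hc.hne hρ) h4

theorem cov_mul {F : ℂ[X][X]} {h ρ : ℂ[X]} (hc : Cov F h) (hρ : ρ ≠ 0) : Cov F (h * ρ) where
  irr := hc.irr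
  deg := hc.deg
  hne := mul_ne_zero hc.hne hρ
  good := by
    intro z hz
    apply hc.good
    rw [eval_mul] at hz
    exact left_ne_zero_of_mul hz

theorem TT_mul_sub {F : ℂ[X][X]} {h ρ : ℂ[X]} : TT F (h * ρ) ⊆ TT F h := by
  intro p hp
  refine ⟨hp.1, ?_⟩
  have := hp.2
  rw [eval_mul] at this
  exact left_ne_zero_of_mul this

theorem Reg.mono {T T' : Set (ℂ × ℂ)} (hT : T' ⊆ T) {g : ℂ × ℂ → ℂ} (hg : Reg T g) : Reg T' g := by
  obtain ⟨A, B, h⟩ := hg
  exact ⟨A, B, fun p hp => h p (hT hp)⟩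

/-- the analytic estimate: if `exp H = 1 + exp (r w) q (exp w)` and `H = O(exp w)`, then
`H = q(0) exp (r w) + O(exp ((r+1) w))` -/
theorem log_est (r : ℕ) (hr : 1 ≤ r) (q : ℂ → ℂ) (hq : AnalyticAt ℂ q 0) (H : ℂ → ℂ) (c M : ℝ)
    (hH : ∀ w : ℂ, w.re < c → ‖H w‖ ≤ M * Real.exp w.re)
    (he : ∀ w : ℂ, w.re < c → Complex.exp (H w) = 1 + Complex.exp (r * w) * q (Complex.exp w)) :
    ∃ c' C : ℝ, c' ≤ c ∧ ∀ w : ℂ, w.re < c' →
      ‖H w - q 0 * Complex.exp (r * w)‖ ≤ C * Real.exp ((r + 1) * w.re) := by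
  -- bounds for q near 0
  obtain ⟨K, hK⟩ : ∃ K : ℝ, ∀ᶠ u in 𝓝 (0 : ℂ), ‖q u - q 0‖ ≤ K * ‖u‖ := by
    have h1 := hq.differentiableAt.isBigO_sub
    obtain ⟨K, hK⟩ := h1.bound
    exact ⟨K, by simpa using hK⟩
  obtain ⟨δ, hδ, hKδ⟩ := Metric.eventually_nhds_iff.1 hK
  have hKn : ∀ u : ℂ, ‖u‖ < δ → ‖q u - q 0‖ ≤ |K| * ‖u‖ := by
    intro u hu
    have h1 := hKδ (y := u) (by simpa using hu)
    exact h1.trans (mul_le_mul_of_nonneg_right (le_abs_self K) (norm_nonneg u))
  set Q : ℝ := ‖q 0‖ + |K| * δ with hQ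
  have hQn : ∀ u : ℂ, ‖u‖ < δ → ‖q u‖ ≤ Q := by
    intro u hu
    have h1 := hKn u hu
    have h2 : ‖q u‖ ≤ ‖q u - q 0‖ + ‖q 0‖ := by
      simpa using norm_add_le (q u - q 0) (q 0)
    have h3 : |K| * ‖u‖ ≤ |K| * δ := mul_le_mul_of_nonneg_left hu.le (abs_nonneg K)
    rw [hQ]; linarith
  have hQ0 : 0 ≤ Q := by positivity
  -- choose c'
  set M' : ℝ := |M| + 1 with hM'
  have hM'0 : 0 < M' := by positivity
  set c' : ℝ := min (min c 0) (min (Real.log δ) (Real.log (1 / (2 * M')))) with hc'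
  refine ⟨c', 4 * Q ^ 2 + |K|, (min_le_left _ _).trans (min_le_left _ _), ?_⟩
  intro w hw
  have hwc : w.re < c := hw.trans_le ((min_le_left _ _).trans (min_le_left _ _))
  have hw0 : w.re < 0 := hw.trans_le ((min_le_left _ _).trans (min_le_right _ _))
  have hwδ : Real.exp w.re < δ := by
    have : w.re < Real.log δ := hw.trans_le ((min_le_right _ _).trans (min_le_left _ _))
    calc Real.exp w.re < Real.exp (Real.log δ) := Real.exp_lt_exp.2 this
      _ = δ := Real.exp_log hδ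
  have hwM : Real.exp w.re < 1 / (2 * M') := by
    have : w.re < Real.log (1 / (2 * M')) :=
      hw.trans_le ((min_le_right _ _).trans (min_le_right _ _))
    calc Real.exp w.re < Real.exp (Real.log (1 / (2 * M'))) := Real.exp_lt_exp.2 this
      _ = 1 / (2 * M') := Real.exp_log (by positivity)
  have hne : ‖Complex.exp w‖ = Real.exp w.re := Complex.norm_exp w
  have hnr : ‖Complex.exp (r * w)‖ = Real.exp (r * w.re) := by
    rw [Complex.norm_exp]; simp
  -- H is small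
  have hHs : ‖H w‖ ≤ 1 / 2 := by
    have h1 := hH w hwc
    have h2 : M * Real.exp w.re ≤ M' * Real.exp w.re := by
      apply mul_le_mul_of_nonneg_right _ (Real.exp_pos _).le
      rw [hM']; linarith [le_abs_self M]
    have h3 : M' * Real.exp w.re ≤ M' * (1 / (2 * M')) :=
      mul_le_mul_of_nonneg_left hwM.le hM'0.le
    have h4 : M' * (1 / (2 * M')) = 1 / 2 := by field_simp
    linarith
  have hE := he w hwc
  have hq1 : ‖q (Complex.exp w)‖ ≤ Q := hQn _ (by rw [hne]; exact hwδ)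
  have hq2 : ‖q (Complex.exp w) - q 0‖ ≤ |K| * Real.exp w.re := by
    rw [← hne]; exact hKn _ (by rw [hne]; exact hwδ)
  -- |exp H - 1 - H| ≤ |H|^2
  have hT : ‖Complex.exp (H w) - 1 - H w‖ ≤ ‖H w‖ ^ 2 :=
    Complex.norm_exp_sub_one_sub_id_le (by linarith)
  have hEE : Complex.exp (H w) - 1 = Complex.exp (r * w) * q (Complex.exp w) := by
    rw [hE]; ring
  have hN1 : ‖Complex.exp (H w) - 1‖ ≤ Real.exp (r * w.re) * Q := by
    rw [hEE, norm_mul, hnr]
    exact mul_le_mul_of_nonneg_left hq1 (Real.exp_pos _).le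
  have hN2 : ‖H w‖ ≤ 2 * (Real.exp (r * w.re) * Q) := by
    have h1 : ‖H w‖ ≤ ‖Complex.exp (H w) - 1‖ + ‖Complex.exp (H w) - 1 - H w‖ := by
      have := norm_sub_le (Complex.exp (H w) - 1) (Complex.exp (H w) - 1 - H w)
      simpa using this
    have h2 : ‖H w‖ ^ 2 ≤ ‖H w‖ / 2 := by nlinarith [norm_nonneg (H w)]
    linarith
  have hN3 : ‖H w‖ ^ 2 ≤ 4 * Q ^ 2 * Real.exp ((r + 1) * w.re) := by
    have h1 : ‖H w‖ ^ 2 ≤ (2 * (Real.exp (r * w.re) * Q)) ^ 2 :=
      pow_le_pow_left₀ (norm_nonneg _) hN2 2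
    have h2 : (2 * (Real.exp (r * w.re) * Q)) ^ 2 = 4 * Q ^ 2 * Real.exp (2 * (r * w.re)) := by
      have : Real.exp (2 * (r * w.re)) = Real.exp (r * w.re) ^ 2 := by
        rw [two_mul, Real.exp_add, sq]
      rw [this]; ring
    have h3 : Real.exp (2 * (r * w.re)) ≤ Real.exp ((r + 1) * w.re) := by
      apply Real.exp_le_exp.2
      have hr' : (1 : ℝ) ≤ r := by exact_mod_cast hr
      nlinarith
    calc ‖H w‖ ^ 2 ≤ (2 * (Real.exp (r * w.re) * Q)) ^ 2 := h1
      _ = 4 * Q ^ 2 * Real.exp (2 * (r * w.re)) := h2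
      _ ≤ 4 * Q ^ 2 * Real.exp ((r + 1) * w.re) :=
        mul_le_mul_of_nonneg_left h3 (by positivity)
  have hfin : H w - q 0 * Complex.exp (r * w) =
      Complex.exp (r * w) * (q (Complex.exp w) - q 0) - (Complex.exp (H w) - 1 - H w) := by
    rw [hEE]; ring
  rw [hfin]
  have h5 : ‖Complex.exp (r * w) * (q (Complex.exp w) - q 0)‖ ≤
      |K| * Real.exp ((r + 1) * w.re) := by
    rw [norm_mul, hnr]
    calc Real.exp (r * w.re) * ‖q (Complex.exp w) - q 0‖
        ≤ Real.exp (r * w.re) * (|K| * Real.exp w.re) :=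
          mul_le_mul_of_nonneg_left hq2 (Real.exp_pos _).le
      _ = |K| * (Real.exp (r * w.re) * Real.exp w.re) := by ring
      _ = |K| * Real.exp ((r + 1) * w.re) := by
        rw [← Real.exp_add]; congr 2; ring
  calc ‖Complex.exp (r * w) * (q (Complex.exp w) - q 0) - (Complex.exp (H w) - 1 - H w)‖
      ≤ ‖Complex.exp (r * w) * (q (Complex.exp w) - q 0)‖ + ‖Complex.exp (H w) - 1 - H w‖ :=
        norm_sub_le _ _
    _ ≤ |K| * Real.exp ((r + 1) * w.re) + 4 * Q ^ 2 * Real.exp ((r + 1) * w.re) := by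
        linarith
    _ = (4 * Q ^ 2 + |K|) * Real.exp ((r + 1) * w.re) := by ring

/-- if `exp (A w + β + H w)` tends to `γ ≠ 0` along the negative real axis and `H → 0`, then
`A = 0` and `exp β = γ` -/
theorem lim_zero (A : ℤ) (β γ : ℂ) (hγ : γ ≠ 0) (H : ℂ → ℂ) (c M : ℝ)
    (hH : ∀ w : ℂ, w.re < c → ‖H w‖ ≤ M * Real.exp w.re)
    (hg : Tendsto (fun x : ℝ => Complex.exp ((A : ℂ) * (x : ℂ) + β + H x)) atBot (𝓝 γ)) :
    A = 0 ∧ Complex.exp β = γ := by
  have hH0 : Tendsto (fun x : ℝ => H x) atBot (𝓝 0) := by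
    have h1 : Tendsto (fun x : ℝ => M * Real.exp x) atBot (𝓝 0) := by
      have := (Real.tendsto_exp_atBot).const_mul M
      simpa using this
    refine squeeze_zero_norm' ?_ h1
    filter_upwards [eventually_lt_atBot c] with x hx
    simpa using hH (x : ℂ) (by simpa using hx)
  have hE : Tendsto (fun x : ℝ => Complex.exp (-(β + H x))) atBot (𝓝 (Complex.exp (-β))) := by
    have h1 : Tendsto (fun x : ℝ => -(β + H x)) atBot (𝓝 (-β)) := by
      have := (hH0.const_add β).neg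
      simpa using this
    exact (Complex.continuous_exp.tendsto _).comp h1
  have hAx : Tendsto (fun x : ℝ => Complex.exp ((A : ℂ) * (x : ℂ))) atBot
      (𝓝 (γ * Complex.exp (-β))) := by
    refine (hg.mul hE).congr fun x => ?_
    rw [← Complex.exp_add]
    congr 1; ring
  have hne : γ * Complex.exp (-β) ≠ 0 := mul_ne_zero hγ (Complex.exp_ne_zero _)
  have hAn : Tendsto (fun x : ℝ => Real.exp (A * x)) atBot (𝓝 ‖γ * Complex.exp (-β)‖) := by
    refine hAx.norm.congr fun x => ?_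
    rw [Complex.norm_exp]
    congr 1
    simp
  have hA : A = 0 := by
    by_contra hA0
    rcases lt_or_gt_of_ne hA0 with hneg | hpos
    · have h1 : Tendsto (fun x : ℝ => (A : ℝ) * x) atBot atTop := by
        apply Tendsto.const_mul_atBot_of_neg
        · exact_mod_cast hneg
        · exact tendsto_id
      have h2 := Real.tendsto_exp_atTop.comp h1
      exact not_tendsto_nhds_of_tendsto_atTop h2 _ hAn
    · have h1 : Tendsto (fun x : ℝ => (A : ℝ) * x) atBot atBot := by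
        apply Tendsto.const_mul_atBot
        · exact_mod_cast hpos
        · exact tendsto_id
      have h2 := Real.tendsto_exp_atBot.comp h1
      have h3 := tendsto_nhds_unique h2 hAn
      exact hne (norm_eq_zero.1 h3.symm)
  refine ⟨hA, ?_⟩
  rw [hA] at hAx
  simp only [Int.cast_zero, zero_mul, Complex.exp_zero] at hAx
  have h1 := tendsto_nhds_unique hAx tendsto_const_nhds
  rw [Complex.exp_neg] at h1
  field_simp at h1
  exact h1.symm

theorem t_val (h1 : S_end) (h2 : S_bdd) (h3 : S_res) : S_val := by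
  intro n F h R hcov hind m v0 s hmv
  obtain ⟨hreg, hunit, hmul⟩ := hind
  set γ : ℂ := Complex.exp s with hγ
  have hγ0 : γ ≠ 0 := Complex.exp_ne_zero _
  have hm0 : m ≠ 0 := by
    rintro rfl
    simp at hmv
  -- the monomial is a regular unit
  have hRU : ∀ i, RU (TT F h) (R i) := by
    intro i
    obtain ⟨A, B, hAB⟩ := hreg i
    refine ⟨A, B, fun p hp => ?_⟩
    obtain ⟨hB, hg⟩ := hAB p hp
    refine ⟨?_, hB, hg⟩
    intro hA
    exact hunit i p hp (by rw [hg, hA, zero_div])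
  obtain ⟨A, B, hAB⟩ := RU.prod Finset.univ (fun i p => R i p ^ m i) (fun i => (hRU i).zpow (m i))
  -- not constant
  have hnc : ∀ c : ℂ, ¬ ∀ p ∈ TT F h, A.evalEval p.1 p.2 = c * B.evalEval p.1 p.2 := by
    intro c hc
    refine hmul m hm0 ⟨c, fun p hp => ?_⟩
    obtain ⟨_, hB, hg⟩ := hAB p hp
    simp only at hg
    rw [hg, hc p hp, mul_div_assoc, div_self hB, mul_one]
  have hnd : ∀ c : ℂ, ¬ F ∣ A - C (C c) * B := by
    intro c hd
    obtain ⟨E, hE⟩ := hd
    refine hnc c fun p hp => ?_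
    have h4 := congrArg (evalEval p.1 p.2) hE
    rw [evalEval_mul, hp.1, zero_mul, evalEval_sub, evalEval_mul, evalEval_C, eval_C] at h4
    exact sub_eq_zero.1 h4
  set D : ℂ[X][X] := A - C (C γ) * B with hD
  have hDe : ∀ p : ℂ × ℂ, D.evalEval p.1 p.2 = A.evalEval p.1 p.2 - γ * B.evalEval p.1 p.2 := by
    intro p
    rw [hD, evalEval_sub, evalEval_mul, evalEval_C, eval_C]
  obtain ⟨a', b', ρ, hρ, hab⟩ := h3 F D hcov.irr hcov.deg (hnd γ)
  have hcov' : Cov F (h * ρ) := cov_mul hcov hρ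
  have hsub : TT F (h * ρ) ⊆ TT F h := TT_mul_sub
  have hDn : ∀ p ∈ TT F (h * ρ), D.evalEval p.1 p.2 ≠ 0 := by
    intro p hp hD0
    have h4 := congrArg (evalEval p.1 p.2) hab
    rw [evalEval_add, evalEval_mul, evalEval_mul, hp.1, hD0, evalEval_C, mul_zero, mul_zero,
      add_zero] at h4
    have h5 := hp.2
    rw [eval_mul, ← h4, mul_zero] at h5
    exact h5 rfl
  obtain ⟨K, t, c0, hpl, hbd⟩ := h2 F (h * ρ) hcov'
  set G : ℂ × ℂ → ℂ := fun p => B.evalEval p.1 p.2 / D.evalEval p.1 p.2 with hG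
  have hGreg : Reg (TT F (h * ρ)) G := ⟨B, D, fun p hp => ⟨hDn p hp, rfl⟩⟩
  -- G is unbounded along some place
  have hunb : ∃ k, ∀ M c1 : ℝ, ∃ w : ℂ, w.re < c1 ∧ M < ‖G (t k w)‖ := by
    by_contra hcon
    push Not at hcon
    obtain ⟨c, hc⟩ := hbd G hGreg hcon
    have hB : ∀ p ∈ TT F (h * ρ), B.evalEval p.1 p.2 = c * D.evalEval p.1 p.2 := by
      intro p hp
      have h4 := hc p hp
      rw [hG] at h4
      simp only at h4
      rw [div_eq_iff (hDn p hp)] at h4
      exact h4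
    have hdv : F ∣ A - C (C (1 / c + γ)) * B := by
      apply dvd_of_vanish h3 hcov'
      intro p hp
      rw [evalEval_sub, evalEval_mul, evalEval_C, eval_C]
      have h4 := hB p hp
      have h5 := hDe p
      have h6 := (hAB p (hsub hp)).2.1
      have hc0 : c ≠ 0 := by
        rintro rfl
        rw [zero_mul] at h4
        exact h6 h4
      have h7 : D.evalEval p.1 p.2 = 1 / c * B.evalEval p.1 p.2 := by
        rw [h4]; field_simp
      rw [h7] at h5
      linear_combination -h5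
    exact hnd _ hdv
  obtain ⟨k, hk⟩ := hunb
  set τ := t k with hτ
  have hplk := hpl k
  rw [← hτ] at hplk
  -- local form of G
  obtain ⟨l, G0, c1, hG0a, hG00, hc1, hGl⟩ : ∃ (l : ℤ) (G0 : ℂ → ℂ) (c1 : ℝ),
      AnalyticAt ℂ G0 0 ∧ G0 0 ≠ 0 ∧ c1 ≤ c0 ∧
      ∀ w : ℂ, w.re < c1 → G (τ w) = Complex.exp (l * w) * G0 (Complex.exp w) := by
    rcases hplk.2.2.2 G hGreg with hz | hex
    · exfalso
      obtain ⟨w, hw, hw'⟩ := hk 0 c0
      rw [hz w hw, norm_zero] at hw'
      exact lt_irrefl _ hw'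
    · exact hex
  -- l < 0
  have hl : l < 0 := by
    by_contra hl
    push Not at hl
    have h4 : ∀ᶠ u in 𝓝 (0 : ℂ), ‖G0 u‖ < ‖G0 0‖ + 1 := by
      have := (hG0a.continuousAt.norm).eventually (gt_mem_nhds (show ‖G0 0‖ < ‖G0 0‖ + 1 by simp))
      exact this
    obtain ⟨δ, hδ, h5⟩ := Metric.eventually_nhds_iff.1 h4
    obtain ⟨w, hw, hw'⟩ := hk (‖G0 0‖ + 1) (min (min c1 0) (Real.log δ))
    have hwc : w.re < c1 := hw.trans_le ((min_le_left _ _).trans (min_le_left _ _))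
    have hw0 : w.re < 0 := hw.trans_le ((min_le_left _ _).trans (min_le_right _ _))
    have hwδ : Real.exp w.re < δ := by
      have : w.re < Real.log δ := hw.trans_le (min_le_right _ _)
      calc Real.exp w.re < Real.exp (Real.log δ) := Real.exp_lt_exp.2 this
        _ = δ := Real.exp_log hδ
    rw [hGl w hwc, norm_mul, Complex.norm_exp] at hw'
    have h6 : Real.exp ((l : ℂ) * w).re ≤ 1 := by
      rw [Real.exp_le_one_iff]
      have : ((l : ℂ) * w).re = (l : ℝ) * w.re := by simp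
      rw [this]
      have hl' : (0 : ℝ) ≤ l := by exact_mod_cast hl
      exact mul_nonpos_of_nonneg_of_nonpos hl' hw0.le
    have h7 : ‖G0 (Complex.exp w)‖ < ‖G0 0‖ + 1 := by
      apply h5
      rw [dist_zero_right, Complex.norm_exp]
      exact hwδ
    have h8 : Real.exp ((l : ℂ) * w).re * ‖G0 (Complex.exp w)‖ ≤ 1 * (‖G0 0‖ + 1) :=
      mul_le_mul h6 h7.le (norm_nonneg _) zero_le_one
    linarith
  obtain ⟨r, hr⟩ : ∃ r : ℕ, l = -(r : ℤ) := by
    obtain ⟨r, hr⟩ := Int.eq_ofNat_of_zero_le (show 0 ≤ -l by omega)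
    exact ⟨r, by omega⟩
  have hr1 : 1 ≤ r := by omega
  -- the end
  obtain ⟨c2, a, b, hh, C0, hc2, hpl2, hdiff, hbound, hexp⟩ :=
    h1 n (TT F (h * ρ)) R τ c0 (fun i => Reg.mono hsub (hreg i))
      (fun i p hp => hunit i p (hsub hp)) hplk
  set H : ℂ → ℂ := fun w => ∑ i, (m i : ℂ) * hh w i with hHdef
  set M : ℝ := (∑ i, |(m i : ℝ)|) * C0 with hM
  set c3 : ℝ := min c1 c2 with hc3
  have hHb : ∀ w : ℂ, w.re < c2 → ‖H w‖ ≤ M * Real.exp w.re := by
    intro w hw
    have h4 := hbound w hw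
    have h5 : ∀ i, ‖hh w i‖ ≤ C0 * Real.exp w.re := fun i => (norm_le_pi_norm _ i).trans h4
    calc ‖H w‖ ≤ ∑ i, ‖(m i : ℂ) * hh w i‖ := norm_sum_le _ _
      _ ≤ ∑ i, |(m i : ℝ)| * (C0 * Real.exp w.re) := by
          refine Finset.sum_le_sum fun i _ => ?_
          rw [norm_mul]
          have : ‖(m i : ℂ)‖ = |(m i : ℝ)| := by
            rw [← Complex.ofReal_intCast, Complex.norm_real, Real.norm_eq_abs]
          rw [this]
          exact mul_le_mul_of_nonneg_left (h5 i) (abs_nonneg _)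
      _ = M * Real.exp w.re := by rw [← Finset.sum_mul, hM]; ring
  -- the value of the monomial
  have hmon : ∀ w : ℂ, w.re < c2 → A.evalEval (τ w).1 (τ w).2 / B.evalEval (τ w).1 (τ w).2 =
      Complex.exp (((∑ i, m i * a i : ℤ) : ℂ) * w + (∑ i, (m i : ℂ) * b i) + H w) := by
    intro w hw
    have hT := hpl2.1 w hw
    obtain ⟨_, _, h4⟩ := hAB _ (hsub hT)
    rw [← h4]
    simp only
    have h5 : ∀ i, R i (τ w) ^ m i =
        Complex.exp ((m i : ℂ) * ((a i : ℂ) * w + b i + hh w i)) := by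
      intro i
      rw [← hexp w hw i, ← Complex.exp_int_mul]
    rw [Finset.prod_congr rfl (fun i _ => h5 i), ← Complex.exp_sum]
    congr 1
    rw [hHdef]
    push_cast
    rw [Finset.sum_mul, ← Finset.sum_add_distrib, ← Finset.sum_add_distrib]
    refine Finset.sum_congr rfl fun i _ => ?_
    ring
  have hmon2 : ∀ w : ℂ, w.re < c3 → A.evalEval (τ w).1 (τ w).2 / B.evalEval (τ w).1 (τ w).2 =
      γ + Complex.exp (r * w) * (G0 (Complex.exp w))⁻¹ := by
    intro w hw
    have hw1 : w.re < c1 := hw.trans_le (min_le_left _ _)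
    have hw2 : w.re < c2 := hw.trans_le (min_le_right _ _)
    have hT := hpl2.1 w hw2
    have hB := (hAB _ (hsub hT)).2.1
    have hDD := hDn _ hT
    have h4 := hGl w hw1
    have h5 : Complex.exp (r * w) * (G0 (Complex.exp w))⁻¹ = (G (τ w))⁻¹ := by
      rw [h4, mul_inv, ← Complex.exp_neg]
      congr 2
      rw [hr]; push_cast; ring
    rw [h5, hG]
    simp only
    rw [inv_div, hDe]
    field_simp
    ring
  -- limit
  have hlim : Tendsto (fun x : ℝ => Complex.exp (((∑ i, m i * a i : ℤ) : ℂ) * (x : ℂ) +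
      (∑ i, (m i : ℂ) * b i) + H x)) atBot (𝓝 γ) := by
    have hex : Tendsto (fun x : ℝ => Complex.exp (x : ℂ)) atBot (𝓝 0) := by
      rw [tendsto_zero_iff_norm_tendsto_zero]
      refine Real.tendsto_exp_atBot.congr fun x => ?_
      rw [Complex.norm_exp, Complex.ofReal_re]
    have hexr : Tendsto (fun x : ℝ => Complex.exp ((r : ℂ) * (x : ℂ))) atBot (𝓝 0) := by
      have h4 : Tendsto (fun x : ℝ => Complex.exp (x : ℂ) ^ r) atBot (𝓝 (0 ^ r)) := hex.pow r
      rw [zero_pow (by omega)] at h4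
      refine h4.congr fun x => ?_
      rw [← Complex.exp_nat_mul]
    have hGi : Tendsto (fun x : ℝ => (G0 (Complex.exp (x : ℂ)))⁻¹) atBot (𝓝 (G0 0)⁻¹) :=
      ((hG0a.continuousAt.tendsto.comp hex).inv₀ hG00)
    have h5 : Tendsto (fun x : ℝ => γ + Complex.exp ((r : ℂ) * (x : ℂ)) *
        (G0 (Complex.exp (x : ℂ)))⁻¹) atBot (𝓝 γ) := by
      have := (hexr.mul hGi).const_add γ
      simpa using this
    refine h5.congr' ?_
    filter_upwards [eventually_lt_atBot c3] with x hx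
    rw [← hmon2 (x : ℂ) (by simpa using hx), hmon (x : ℂ)
      (by simpa using hx.trans_le (min_le_right _ _))]
  obtain ⟨hma, hmb⟩ := lim_zero _ _ γ hγ0 H c2 M hHb hlim
  -- adjust b
  obtain ⟨kk, hkk⟩ := Complex.exp_eq_exp_iff_exists_int.1 hmb
  -- log estimate
  set q : ℂ → ℂ := fun u => (γ * G0 u)⁻¹ with hq
  have hqa : AnalyticAt ℂ q 0 := by
    have : AnalyticAt ℂ (fun u => γ * G0 u) 0 := analyticAt_const.mul hG0a
    exact this.inv (mul_ne_zero hγ0 hG00)
  have hHe : ∀ w : ℂ, w.re < c3 → Complex.exp (H w) =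
      1 + Complex.exp (r * w) * q (Complex.exp w) := by
    intro w hw
    have h4 := hmon w (hw.trans_le (min_le_right _ _))
    rw [hmon2 w hw, hma, Int.cast_zero, zero_mul, zero_add, Complex.exp_add, hmb] at h4
    rw [hq]
    simp only
    rw [mul_inv]
    have h5 : Complex.exp (H w) = γ⁻¹ * (γ * Complex.exp (H w)) := by
      field_simp
    rw [h5, ← h4, mul_add, inv_mul_cancel₀ hγ0]
    ring
  obtain ⟨c4, C1, hc4, hest⟩ := log_est r hr1 q hqa H c3 M
    (fun w hw => hHb w (hw.trans_le (min_le_right _ _))) hHe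
  have hc42 : c4 ≤ c2 := hc4.trans (min_le_right _ _)
  refine ⟨τ, c4, a, fun i => b i - 2 * Real.pi * Complex.I * kk * v0 i, hh,
    max C0 C1, r, q 0, hr1, ?_, ?_, ?_, ?_, ?_, hma, ?_, ?_⟩
  · rw [hq]; exact inv_ne_zero (mul_ne_zero hγ0 hG00)
  · intro w hw
    exact hsub (hpl2.1 w (hw.trans_le hc42))
  · intro i
    exact (hdiff i).mono fun w hw => lt_of_lt_of_le hw hc42
  · intro w hw
    exact (hbound w (hw.trans_le hc42)).trans
      (mul_le_mul_of_nonneg_right (le_max_left _ _) (Real.exp_pos _).le)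
  · intro w hw i
    rw [← hexp w (hw.trans_le hc42) i, Complex.exp_eq_exp_iff_exists_int]
    refine ⟨-(kk * v0 i), ?_⟩
    push_cast
    ring
  · simp only [mul_sub]
    rw [Finset.sum_sub_distrib, hkk]
    have h4 : ∑ i, (m i : ℂ) * (2 * Real.pi * Complex.I * kk * v0 i) =
        2 * Real.pi * Complex.I * kk * ((∑ i, m i * v0 i : ℤ) : ℂ) := by
      push_cast
      rw [Finset.mul_sum]
      refine Finset.sum_congr rfl fun i _ => ?_
      ring
    rw [h4, hmv]
    push_cast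
    ring
  · intro w hw
    exact (hest w hw).trans
      (mul_le_mul_of_nonneg_right (le_max_right _ _) (Real.exp_pos _).le)

end Pool.Agent.W803.ECV
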